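import Mathlib
import Pool.Agent.Q188.SY.Wand

/-!
# Heights and morphisms of projective spaces: bounds, limits
-/

set_option autoImplicit false
set_option linter.unusedSectionVars false

open Module Filter Topology NumberField

namespace Pool.Agent.Q188.CM

open MvPolynomial

section nss

variable {K : Type} [Field K] {n : ℕ} {ι : Type} [Fintype ι]

/-- powers of the variables are in the ideal -/
lemma pow_mem_span {ψ : ι → MvPolynomial (Fin n) K}
    (h0 : ∀ z : Fin n → AlgebraicClosure K, (∀ i, aeval z (ψ i) = 0) → z = 0) :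
    ∃ e : ℕ, ∀ m, e ≤ m → ∀ i, (X i : MvPolynomial (Fin n) K) ^ m ∈ Ideal.span (Set.range ψ) := by
  set I := Ideal.span (Set.range ψ) with hI
  have h1 : ∀ i, (X i : MvPolynomial (Fin n) K) ∈ I.radical := by
    intro i
    rw [← vanishingIdeal_zeroLocus_eq_radical (K := AlgebraicClosure K), mem_vanishingIdeal_iff]
    intro z hz
    have hz0 : z = 0 := by
      apply h0
      intro j
      exact hz (ψ j) (Ideal.subset_span ⟨j, rfl⟩)
    rw [hz0]
    simp
  have h2 : ∀ i, ∃ k : ℕ, (X i : MvPolynomial (Fin n) K) ^ k ∈ I := h1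
  choose k hk using h2
  refine ⟨∑ i, k i, fun m hm i => ?_⟩
  have h4 : k i ≤ m := (Finset.single_le_sum (fun j _ => Nat.zero_le (k j))
    (Finset.mem_univ i)).trans hm
  rw [← Nat.sub_add_cancel h4, pow_add]
  exact Ideal.mul_mem_left _ _ (hk i)

section hom

attribute [local instance] MvPolynomial.gradedAlgebra

lemma homComp_mul_right {p q : MvPolynomial (Fin n) K} {d m : ℕ} (hq : q.IsHomogeneous d)
    (h : d ≤ m) :
    homogeneousComponent m (p * q) = homogeneousComponent (m - d) p * q := by
  have h1 := DirectSum.coe_decompose_mul_of_right_mem_of_le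
    (homogeneousSubmodule (Fin n) K) (a := p) (b := q) (i := d) (n := m)
    ((mem_homogeneousSubmodule _ _).mpr hq) h
  rw [← decomposition.decompose'_apply, ← decomposition.decompose'_apply]
  exact h1

end hom

/-- the certificate -/
lemma exists_cert {ψ : ι → MvPolynomial (Fin n) K} {d : ℕ} (hψ : ∀ i, (ψ i).IsHomogeneous d)
    (h0 : ∀ z : Fin n → AlgebraicClosure K, (∀ i, aeval z (ψ i) = 0) → z = 0) :
    ∃ (M : ℕ) (c : Fin n × ι → MvPolynomial (Fin n) K), (∀ a, (c a).IsHomogeneous M) ∧
      ∀ k, ∑ j, c (k, j) * ψ j = X k ^ (M + d) := by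
  obtain ⟨e, he⟩ := pow_mem_span h0
  have h1 : ∀ k : Fin n, ∃ c : ι → MvPolynomial (Fin n) K, (∀ j, (c j).IsHomogeneous e) ∧
      ∑ j, c j * ψ j = X k ^ (e + d) := by
    intro k
    have h2 := he (e + d) (by omega) k
    rw [Ideal.mem_span_range_iff_exists_fun] at h2
    obtain ⟨c, hc⟩ := h2
    refine ⟨fun i => homogeneousComponent e (c i), fun i =>
      homogeneousComponent_isHomogeneous _ _, ?_⟩
    have h3 : homogeneousComponent (e + d) (X k ^ (e + d) : MvPolynomial (Fin n) K) =
        X k ^ (e + d) := by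
      have h4 : (X k ^ (e + d) : MvPolynomial (Fin n) K).IsHomogeneous (e + d) := by
        have := (isHomogeneous_X K k).pow (e + d)
        rwa [one_mul] at this
      rw [homogeneousComponent_of_mem ((mem_homogeneousSubmodule _ _).mpr h4)]
      simp
    rw [← h3, ← hc, map_sum]
    refine Finset.sum_congr rfl fun i _ => ?_
    have h5 := homComp_mul_right (p := c i) (hψ i) (show d ≤ e + d by omega)
    rw [h5, Nat.add_sub_cancel]
  choose c hc1 hc2 using h1
  exact ⟨e, fun a => c a.1 a.2, fun a => hc1 a.1 a.2, hc2⟩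

end nss

/-- the values of a tuple of forms -/
noncomputable def ev {K M : Type} [Field K] [Field M] [Algebra K M] {a b : ℕ}
    (ψ : Fin b → MvPolynomial (Fin a) K) (z : Fin a → M) : Fin b → M := fun i => aeval z (ψ i)

/-- **Heights under morphisms.** -/
theorem height_ev {K : Type} [Field K] {a b d : ℕ} (ψ : Fin b → MvPolynomial (Fin a) K)
    (hψ : ∀ i, (ψ i).IsHomogeneous d)
    (h0 : ∀ z : Fin a → AlgebraicClosure K, (∀ i, aeval z (ψ i) = 0) → z = 0)
    (L : Type) [Field L] [NumberField L] [Algebra K L] :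
    ∃ C : ℝ, 0 ≤ C ∧ ∀ x : Fin a → L,
      |Height.logHeight (ev ψ x) - d * Height.logHeight x| ≤ C := by
  obtain ⟨M, c, hc, hc2⟩ := exists_cert hψ h0
  have hhom : ∀ i, ((MvPolynomial.map (algebraMap K L)) (ψ i)).IsHomogeneous d := fun i => (hψ i).map _
  have hhc : ∀ i, ((MvPolynomial.map (algebraMap K L)) (c i)).IsHomogeneous M := fun i => (hc i).map _
  obtain ⟨C1, hC1⟩ := Height.logHeight_eval_le' (K := L) hhom
  obtain ⟨C2, hC2⟩ := Height.logHeight_eval_ge' (K := L) (ι := Fin a) (ι' := Fin b) (M := M)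
    (N := d) (q := fun i => (MvPolynomial.map (algebraMap K L)) (c i)) hhc
  have hev : ∀ x : Fin a → L, (fun j => eval x ((MvPolynomial.map (algebraMap K L)) (ψ j))) = ev ψ x := by
    intro x
    funext j
    rw [eval_map]
    rfl
  refine ⟨|C1| + |C2|, by positivity, fun x => ?_⟩
  have h1 := hC1 x
  have h2 := hC2 (fun j => (MvPolynomial.map (algebraMap K L)) (ψ j)) (x := x) (by
    intro k
    have h3 := congrArg (fun p => eval x ((MvPolynomial.map (algebraMap K L)) p)) (hc2 k)
    simp only [map_sum, map_mul, map_pow, map_X, eval_X] at h3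
    exact h3)
  rw [hev] at h1 h2
  rw [abs_le]
  have e1 := le_abs_self C1
  have e2 := neg_abs_le C2
  have e3 := abs_nonneg C1
  have e4 := abs_nonneg C2
  constructor <;> linarith

section seq

/-- comparison of a limit height with the height -/
lemma abs_lim_le {X : Type} (S : X → Prop) (G : X → X) (hG : ∀ x, S x → S (G x)) (H : X → ℝ)
    {q C : ℝ} (hq : 2 ≤ q) (hH : ∀ x, S x → |H (G x) - q * H x| ≤ C) {x : X} (hx : S x) {l : ℝ}
    (hl : Tendsto (fun k : ℕ => H (G^[k] x) / q ^ k) atTop (𝓝 l)) : |l - H x| ≤ C := by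
  have hq0 : 0 < q := by linarith
  have hC : 0 ≤ C := (abs_nonneg _).trans (hH x hx)
  have hS : ∀ k : ℕ, S (G^[k] x) := by
    intro k
    induction k with
    | zero => exact hx
    | succ k ih => rw [Function.iterate_succ_apply']; exact hG _ ih
  have key : ∀ k : ℕ, |H (G^[k] x) / q ^ k - H x| ≤ C * (1 - 1 / q ^ k) := by
    intro k
    induction k with
    | zero => simp
    | succ k ih =>
      have h1 := hH _ (hS k)
      rw [Function.iterate_succ_apply']
      have hqk : 0 < q ^ k := by positivity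
      have h2 : |H (G (G^[k] x)) / q ^ (k + 1) - H (G^[k] x) / q ^ k| ≤ C / q ^ (k + 1) := by
        have h3 : H (G (G^[k] x)) / q ^ (k + 1) - H (G^[k] x) / q ^ k =
            (H (G (G^[k] x)) - q * H (G^[k] x)) / q ^ (k + 1) := by
          rw [pow_succ]
          field_simp
        rw [h3, abs_div, abs_of_pos (show 0 < q ^ (k + 1) by positivity)]
        exact div_le_div_of_nonneg_right h1 (by positivity)
      have h4 : |H (G (G^[k] x)) / q ^ (k + 1) - H x| ≤
          C / q ^ (k + 1) + C * (1 - 1 / q ^ k) := by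
        have := abs_add_le (H (G (G^[k] x)) / q ^ (k + 1) - H (G^[k] x) / q ^ k)
          (H (G^[k] x) / q ^ k - H x)
        rw [sub_add_sub_cancel] at this
        exact this.trans (add_le_add h2 ih)
      refine h4.trans ?_
      have h5 : C / q ^ (k + 1) + C / q ^ (k + 1) ≤ C / q ^ k := by
        rw [pow_succ, ← add_div, div_le_div_iff₀ (by positivity) hqk]
        nlinarith [mul_nonneg hC hqk.le]
      have h6 : C * (1 - 1 / q ^ k) = C - C / q ^ k := by ring
      have h7 : C * (1 - 1 / q ^ (k + 1)) = C - C / q ^ (k + 1) := by ring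
      rw [h6, h7]
      linarith
  have hlim : Tendsto (fun k : ℕ => |H (G^[k] x) / q ^ k - H x|) atTop (𝓝 |l - H x|) :=
    (hl.sub_const _).abs
  refine le_of_tendsto' hlim fun k => (key k).trans ?_
  have : 0 ≤ 1 / q ^ k := by positivity
  nlinarith

/-- the limit along a map of degree `d` -/
lemma tendsto_of_func {X : Type} (S : X → Prop) (G : X → X) (hG : ∀ x, S x → S (G x)) (H g : X → ℝ)
    {d C : ℝ} (hd : 2 ≤ d) (hC : ∀ x, S x → |g x - H x| ≤ C) (hg : ∀ x, S x → g (G x) = d * g x)
    {x : X} (hx : S x) : Tendsto (fun k : ℕ => H (G^[k] x) / d ^ k) atTop (𝓝 (g x)) := by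
  have hd0 : 0 < d := by linarith
  have hS : ∀ k : ℕ, S (G^[k] x) ∧ g (G^[k] x) = d ^ k * g x := by
    intro k
    induction k with
    | zero => exact ⟨hx, by simp⟩
    | succ k ih =>
      rw [Function.iterate_succ_apply']
      refine ⟨hG _ ih.1, ?_⟩
      rw [hg _ ih.1, ih.2, pow_succ]
      ring
  rw [tendsto_iff_norm_sub_tendsto_zero]
  have h1 : Tendsto (fun k : ℕ => C * (1 / d) ^ k) atTop (𝓝 0) := by
    have := (tendsto_pow_atTop_nhds_zero_of_lt_one (show 0 ≤ 1 / d by positivity)
      (by rw [div_lt_one hd0]; linarith)).const_mul C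
    rwa [mul_zero] at this
  refine squeeze_zero (fun _ => norm_nonneg _) (fun k => ?_) h1
  have h2 := hC _ (hS k).1
  rw [(hS k).2] at h2
  have hdk : 0 < d ^ k := by positivity
  rw [Real.norm_eq_abs]
  have h3 : H (G^[k] x) / d ^ k - g x = -(d ^ k * g x - H (G^[k] x)) / d ^ k := by
    field_simp
    ring
  rw [h3, abs_div, abs_neg, abs_of_pos hdk, one_div, inv_pow, ← div_eq_mul_inv]
  exact div_le_div_of_nonneg_right h2 hdk.le

end seq

end Pool.Agent.Q188.CM
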