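import Pool.Agent.Q188.CM.Main
import Pool.Agent.Q188.SY.Ex
import Pool.Agent.Y740.RL.Ell2

/-!
# The multiplication maps of an elliptic curve on first coordinates
-/

set_option autoImplicit false
set_option linter.unusedSectionVars false

open Module Filter Topology NumberField

namespace Pool.Agent.Q188.CM

open Pool.Agent.Q188.SY

open Pool.Agent.Y740.RL (xc xc_ne_zero)

section lift

variable {K : Type} [Field K] [NumberField K] (W : WeierstrassCurve.Affine K) [W.IsElliptic]
  {Ω : Type} [Field Ω] [Algebra K Ω] [Algebra.IsAlgebraic K Ω] [IsAlgClosed Ω]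

/-- every point of the projective line over an algebraic closure comes from a point of the curve
over a number field -/
lemma exists_point {z : Fin 2 → Ω} (hz : z ≠ 0) :
    ∃ (M : Type) (_ : Field M) (_ : NumberField M) (_ : Algebra K M) (σ : M →ₐ[K] Ω)
      (P : (W.baseChange M).Point), Sim z (fun i => σ (xc P i)) := by
  by_cases h1 : z 1 = 0
  · refine ⟨K, inferInstance, inferInstance, Algebra.id K, Algebra.ofId K Ω,
      WeierstrassCurve.Affine.Point.zero, z 0, ?_, ?_⟩
    · intro h0
      apply hz
      funext i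
      fin_cases i
      · exact h0
      · exact h1
    · funext i
      fin_cases i
      · simp [xc]
      · simp [xc, h1]
  · set x : Ω := z 0 / z 1 with hx
    -- the quadratic equation for `y`
    obtain ⟨y, hy⟩ : ∃ y : Ω, y ^ 2 + algebraMap K Ω W.a₁ * x * y + algebraMap K Ω W.a₃ * y =
        x ^ 3 + algebraMap K Ω W.a₂ * x ^ 2 + algebraMap K Ω W.a₄ * x + algebraMap K Ω W.a₆ := by
      set b : Ω := algebraMap K Ω W.a₁ * x + algebraMap K Ω W.a₃ with hb
      set c : Ω := x ^ 3 + algebraMap K Ω W.a₂ * x ^ 2 + algebraMap K Ω W.a₄ * x +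
        algebraMap K Ω W.a₆ with hc
      have hdeg : (Polynomial.X ^ 2 + Polynomial.C b * Polynomial.X - Polynomial.C c :
          Polynomial Ω).degree ≠ 0 := by
        have h2 : (Polynomial.X ^ 2 + Polynomial.C b * Polynomial.X - Polynomial.C c :
            Polynomial Ω) = Polynomial.C 1 * Polynomial.X ^ 2 + Polynomial.C b * Polynomial.X +
              Polynomial.C (-c) := by
          rw [Polynomial.C_neg, Polynomial.C_1]
          ring
        rw [h2, Polynomial.degree_quadratic one_ne_zero]
        decide
      obtain ⟨y, hy⟩ := IsAlgClosed.exists_root _ hdeg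
      refine ⟨y, ?_⟩
      have h3 : y ^ 2 + b * y - c = 0 := by
        have := hy
        simp only [Polynomial.IsRoot.def, Polynomial.eval_sub, Polynomial.eval_add,
          Polynomial.eval_pow, Polynomial.eval_X, Polynomial.eval_mul, Polynomial.eval_C] at this
        exact this
      rw [hb] at h3
      linear_combination h3
    let M := IntermediateField.adjoin K ({x, y} : Set Ω)
    have hfin : FiniteDimensional K M := by
      have : FiniteDimensional K (IntermediateField.adjoin K ({x, y} : Set Ω)) :=
        IntermediateField.finiteDimensional_adjoin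
          (fun t _ => (Algebra.IsAlgebraic.isAlgebraic t).isIntegral)
      exact this
    have hfin2 : FiniteDimensional ℚ M := FiniteDimensional.trans ℚ K M
    have hcz : CharZero M := charZero_of_injective_algebraMap (algebraMap K M).injective
    have hnf : NumberField M := { to_charZero := hcz, to_finiteDimensional := hfin2 }
    let xM : M := ⟨x, IntermediateField.subset_adjoin K _ (by simp)⟩
    let yM : M := ⟨y, IntermediateField.subset_adjoin K _ (by simp)⟩
    have heq : (W.baseChange M).Equation xM yM := by
      rw [WeierstrassCurve.Affine.equation_iff]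
      apply Subtype.ext
      exact hy
    have hell : WeierstrassCurve.IsElliptic (W.baseChange M) :=
      (inferInstance : (WeierstrassCurve.map W (algebraMap K M)).IsElliptic)
    have hns : (W.baseChange M).Nonsingular xM yM :=
      WeierstrassCurve.Affine.equation_iff_nonsingular.mp heq
    refine ⟨M, inferInstance, hnf, inferInstance, M.val,
      WeierstrassCurve.Affine.Point.some xM yM hns, z 1, h1, ?_⟩
    funext i
    fin_cases i
    · show z 0 = z 1 * x
      rw [hx]
      field_simp
    · show z 1 = z 1 * (M.val 1)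
      rw [map_one, mul_one]

open Classical in
/-- the forms give the multiplication by `k` on first coordinates -/
def Mul (k : ℕ) (F : Fin 2 → MvPolynomial (Fin 2) K) : Prop :=
  ∀ (L : Type) [Field L] [NumberField L] [Algebra K L] (P : (W.baseChange L).Point),
    ∃ c : L, c ≠ 0 ∧ act F (xc P) = c • xc (k • P)

variable {W}

open Classical in
/-- the value at a point that comes from the curve -/
lemma act_lift {k q : ℕ} {F : Fin 2 → MvPolynomial (Fin 2) K} (hF : ∀ i, (F i).IsHomogeneous q)
    (hm : Mul W k F) {M : Type} [Field M] [NumberField M] [Algebra K M] (σ : M →ₐ[K] Ω)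
    (P : (W.baseChange M).Point) {z : Fin 2 → Ω} (h : Sim z (fun i => σ (xc P i))) :
    Sim (act F z) (fun i => σ (xc (k • P) i)) := by
  refine (h.act hF).trans ?_
  rw [act_map]
  obtain ⟨c, hc, h1⟩ := hm M P
  refine ⟨σ c, ?_, ?_⟩
  · intro h0
    apply hc
    apply σ.toRingHom.injective
    rw [map_zero]
    exact h0
  · funext i
    rw [h1, Pi.smul_apply, smul_eq_mul, map_mul]
    rfl

lemma lift_ne_zero {M : Type} [Field M] [NumberField M] [Algebra K M] (σ : M →ₐ[K] Ω)
    (P : (W.baseChange M).Point) : (fun i => σ (xc P i)) ≠ (0 : Fin 2 → Ω) := by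
  intro h
  apply xc_ne_zero P
  funext i
  apply σ.toRingHom.injective
  rw [show σ.toRingHom (xc P i) = σ (xc P i) from rfl]
  have := congrFun h i
  rw [this]
  simp

/-- no common zeros -/
lemma mul_ne_zero' {k q : ℕ} {F : Fin 2 → MvPolynomial (Fin 2) K}
    (hF : ∀ i, (F i).IsHomogeneous q) (hm : Mul W k F) {z : Fin 2 → Ω} (hz : z ≠ 0) :
    act F z ≠ 0 := by
  classical
  obtain ⟨M, _, _, _, σ, P, h⟩ := exists_point W hz
  exact (act_lift hF hm σ P h).ne_zero (lift_ne_zero σ _)

/-- the multiplication maps commute -/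
lemma mul_comm' {k l q q' : ℕ} {F F' : Fin 2 → MvPolynomial (Fin 2) K}
    (hF : ∀ i, (F i).IsHomogeneous q) (hm : Mul W k F)
    (hF' : ∀ i, (F' i).IsHomogeneous q') (hm' : Mul W l F') {z : Fin 2 → Ω} (hz : z ≠ 0) :
    Sim (act F (act F' z)) (act F' (act F z)) := by
  classical
  obtain ⟨M, _, _, _, σ, P, h⟩ := exists_point W hz
  have h1 := act_lift hF hm σ _ (act_lift hF' hm' σ P h)
  have h2 := act_lift hF' hm' σ _ (act_lift hF hm σ P h)
  have h3 : k • l • P = l • k • P := by
    rw [smul_smul, smul_smul, mul_comm]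
  rw [h3] at h1
  exact h1.trans h2.symm

end lift

/-- proportional over an extension -/
lemma sim_descend {L Ω : Type} [Field L] [Field Ω] (φ : L →+* Ω) {n : ℕ} {u w : Fin n → L}
    (hw : w ≠ 0) (h : Sim (fun i => φ (u i)) (fun i => φ (w i))) : Sim u w := by
  obtain ⟨μ, hμ, h1⟩ := h
  obtain ⟨k, hk⟩ := Function.ne_iff.mp hw
  have hk' : w k ≠ 0 := hk
  have h2 : φ (u k / w k) = μ := by
    have h3 := congrFun h1 k
    rw [Pi.smul_apply, smul_eq_mul] at h3
    have h4 : φ (w k) ≠ 0 := by
      intro h0
      apply hk'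
      apply φ.injective
      rw [h0, map_zero]
    rw [map_div₀]
    have h5 : φ (u k) = μ * φ (w k) := h3
    rw [h5, mul_div_assoc, div_self h4, mul_one]
  refine ⟨u k / w k, ?_, ?_⟩
  · intro h0
    rw [h0, map_zero] at h2
    exact hμ h2.symm
  · funext j
    apply φ.injective
    rw [Pi.smul_apply, smul_eq_mul, map_mul, h2]
    exact congrFun h1 j

/-- symmetric powers of the multiplication maps commute -/
lemma sym_comm {K : Type} [Field K] [NumberField K] {W : WeierstrassCurve.Affine K}
    [W.IsElliptic] {k l q q' N : ℕ} {F F' : Fin 2 → MvPolynomial (Fin 2) K}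
    (hF : ∀ i, (F i).IsHomogeneous q) (hm : Mul W k F)
    (hF' : ∀ i, (F' i).IsHomogeneous q') (hm' : Mul W l F')
    {f g : Fin (N + 1) → MvPolynomial (Fin (N + 1)) K} (hf : ∀ i, (f i).IsHomogeneous q)
    (hf0 : Mor f) (hg : ∀ i, (g i).IsHomogeneous q') (hg0 : Mor g)
    (hsf : IsSymPow F f) (hsg : IsSymPow F' g) : Intw f g g := by
  intro L _ _ _ x hx
  let Ω := AlgebraicClosure L
  have hKL : Algebra.IsAlgebraic K L := by
    have h1 : Module.Finite K L := Module.Finite.of_restrictScalars_finite ℚ K L
    infer_instance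
  have hKΩ : Algebra.IsAlgebraic K Ω := Algebra.IsAlgebraic.trans K L Ω
  let φ : L →ₐ[K] Ω := IsScalarTower.toAlgHom K L Ω
  have hx' : (fun i => φ (x i)) ≠ 0 := by
    intro h0
    apply hx
    funext i
    apply φ.toRingHom.injective
    have := congrFun h0 i
    simpa using this
  obtain ⟨z, hz, hsim⟩ := exists_split hx'
  have h1 : Sim (act f (act g fun i => φ (x i))) (act g (act f fun i => φ (x i))) := by
    have a1 : Sim (act g fun i => φ (x i)) (symVec fun i => act F' (z i)) :=
      (hsim.act hg).trans (hsg Ω z hz)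
    have a2 : Sim (act f fun i => φ (x i)) (symVec fun i => act F (z i)) :=
      (hsim.act hf).trans (hsf Ω z hz)
    have b1 := (a1.act hf).trans (hsf Ω (fun i => act F' (z i))
      fun i => mul_ne_zero' (W := W) hF' hm' (hz i))
    have b2 := (a2.act hg).trans (hsg Ω (fun i => act F (z i))
      fun i => mul_ne_zero' (W := W) hF hm (hz i))
    exact b1.trans ((Sim.symVec fun i => mul_comm' (W := W) hF hm hF' hm' (hz i)).trans b2.symm)
  rw [act_map, act_map, act_map, act_map] at h1
  have hne : act g (act f x) ≠ 0 := ev_ne_zero hg0 (ev_ne_zero hf0 hx)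
  exact sim_descend φ.toRingHom hne h1

end Pool.Agent.Q188.CM
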