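import Pool.Agent.Q188.CM.Ell
import Pool.Agent.Y740.RL.Ell5

/-!
# Lower bounds for symmetric powers of Lattès maps
-/

set_option autoImplicit false
set_option linter.unusedSectionVars false

open Module Filter Topology NumberField

namespace Pool.Agent.Q188.CM

open Pool.Agent.Q188.SY

open Pool.Agent.Y740.RL (xc xc_ne_zero xySet NXE)

open Classical in
/-- **The main theorem for Lattès maps.** -/
theorem lattes {K : Type} [Field K] [NumberField K] (W : WeierstrassCurve.Affine K) [W.IsElliptic]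
    {p : ℕ} (hp : p.Prime)
    (F : Fin 2 → MvPolynomial (Fin 2) K) (hF : ∀ i, (F i).IsHomogeneous (p ^ 2)) (hmF : Mul W p F)
    (K' : Type) [Field K'] [NumberField K'] [Algebra K K'] (A : Matrix (Fin 2) (Fin 2) K')
    (hA : A.det ≠ 0) (G : Fin 2 → MvPolynomial (Fin 2) K')
    (hGhom : ∀ i, (G i).IsHomogeneous (p ^ 2)) (hconj : H420R3.Conj A F G) (v : FinitePlace K')
    (hv : v (p : K') < 1) (hred : H420R3.InsepAt v (p ^ 2) G) (B m : ℕ) (hm : 1 ≤ m) {n N k e : ℕ}
    (hk : 2 ≤ k)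
    {F1 : Fin 2 → MvPolynomial (Fin 2) K} (hF1 : ∀ i, (F1 i).IsHomogeneous (k ^ 2))
    (hm1 : Mul W k F1)
    {f' : Fin (N + 1) → MvPolynomial (Fin (N + 1)) K} (hf' : ∀ i, (f' i).IsHomogeneous (k ^ 2))
    (hf'0 : Mor f') (hsym : IsSymPow F1 f')
    {ψ : Fin (N + 1) → MvPolynomial (Fin (n + 1)) K} (hψ : ∀ i, (ψ i).IsHomogeneous e)
    (hψ0 : Mor ψ) (he : 1 ≤ e)
    {f : Fin (n + 1) → MvPolynomial (Fin (n + 1)) K} (hf : ∀ i, (f i).IsHomogeneous (k ^ 2))
    (hf0 : Mor f) (hint : Intw ψ f f') :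
    ∃ C : ℝ, 0 < C ∧ ∀ (E M L : Type) [Field E] [NumberField E] [Field M] [NumberField M]
      [Field L] [NumberField L] [Algebra K E] [Algebra K M] [Algebra K L] [Algebra E M]
      [Algebra M L] [IsScalarTower K E M] [IsScalarTower K M L] [IsGalois K E],
      Y740.RL.FewConj ((H420R3.mi v).under (𝓞 K)) E B m →
      Algebra.adjoin E (xySet M W p) = ⊤ →
      ∀ x : Fin (n + 1) → L, x ≠ 0 → Wand f x →
      ∃ h : ℝ, Tendsto (fun t : ℕ => Height.logHeight ((act f)^[t] x) /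
          ((finrank ℚ L : ℝ) * ((k ^ 2 : ℕ) : ℝ) ^ t)) atTop (𝓝 h) ∧
        Real.exp (-(C * Real.sqrt (1 + Real.log (finrank M L)))) /
          (C * finrank K E * finrank M L) ≤ h ∧
        ∀ e : ℕ, Y740.RL.RamLe ((H420R3.mi v).under (𝓞 K)) E e →
          Real.exp (-(C * Real.sqrt (1 + Real.log (finrank M L)))) / (C * e * finrank M L) ≤
            h := by
  have hmorF : ∀ z : Fin 2 → AlgebraicClosure K, (∀ i, MvPolynomial.aeval z (F i) = 0) →
      z = 0 := by
    intro z hz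
    by_contra hz0
    exact mul_ne_zero' (W := W) hF hmF hz0 (funext hz)
  obtain ⟨g, hg, hg0, hsg⟩ := exists_symPow (n := N) hF hmorF
  have hk2 : 2 ≤ k ^ 2 := hk.trans (Nat.le_self_pow (by norm_num) _)
  obtain ⟨C0, hC0, hmain⟩ := main hp (by norm_num : 1 ≤ 2) F hF K' A hA G hGhom hconj v hv hred
    B m hm hg hg0 hsg hf' hf'0 hk2
    (sym_comm (W := W) hF1 hm1 hF hmF hf' hf'0 hg hg0 hsym hsg) hψ hψ0 he hf hf0 hint
  refine ⟨C0 * (1 + Real.sqrt (Real.log (2 : ℕ))) * ((2 : ℕ) + 1), by positivity, ?_⟩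
  intro E M L _ _ _ _ _ _ _ _ _ _ _ _ _ _ hfew hgen x hx hw
  have hst : IsScalarTower K (NXE E M W p) L := inferInstance
  obtain ⟨h, hlim, hb1, hb2⟩ := hmain E (NXE E M W p) L hfew
    (Y740.RL.adjoin_perE hp.two_le hF (fun Q => hmF M Q)) x hx hw
  have hst2 : IsScalarTower (NXE E M W p) M L := inferInstance
  have hML : Module.Finite M L := Module.Finite.of_restrictScalars_finite ℚ M L
  have hNM : Module.Finite (NXE E M W p) M :=
    Module.Finite.of_restrictScalars_finite ℚ (NXE E M W p) M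
  have h1 : (finrank (NXE E M W p) L : ℝ) = finrank M L * finrank (NXE E M W p) M := by
    rw [mul_comm]
    exact_mod_cast (finrank_mul_finrank (NXE E M W p) M L).symm
  have hm1' : (1 : ℝ) ≤ finrank (NXE E M W p) M := by
    exact_mod_cast (finrank_pos : 0 < finrank (NXE E M W p) M)
  have hD1 : (1 : ℝ) ≤ finrank M L := by exact_mod_cast (finrank_pos : 0 < finrank M L)
  have hm2 : (finrank (NXE E M W p) M : ℝ) ≤ (2 : ℕ) := by
    exact_mod_cast Y740.RL.finrank_NXE_le W p hgen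
  rw [h1] at hb1
  refine ⟨h, hlim, ?_, fun e' he' => ?_⟩
  · exact (bound_ext hC0 (Nat.cast_nonneg _) hD1 hm1' hm2).trans hb1
  · have hb3 := hb2 e' he'
    rw [h1] at hb3
    exact (bound_ext hC0 (Nat.cast_nonneg _) hD1 hm1' hm2).trans hb3

end Pool.Agent.Q188.CM
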