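import Pool.Agent.Q188.CM.Base
import Pool.Agent.Q188.SY.Top

/-!
# Lower bounds for canonical heights of maps that are semiconjugate to maps commuting with a
symmetric power
-/

set_option autoImplicit false
set_option linter.unusedSectionVars false

open Module Filter Topology NumberField

namespace Pool.Agent.Q188.CM

open Pool.Agent.Q188.SY

/-- `ψ` intertwines `f` and `f'` -/
def Intw {K : Type} [Field K] [NumberField K] {a b : ℕ} (ψ : Fin b → MvPolynomial (Fin a) K)
    (f : Fin a → MvPolynomial (Fin a) K) (f' : Fin b → MvPolynomial (Fin b) K) : Prop :=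
  ∀ (L : Type) [Field L] [NumberField L] [Algebra K L] (x : Fin a → L), x ≠ 0 →
    ∃ c : L, c ≠ 0 ∧ ev ψ (ev f x) = c • ev f' (ev ψ x)

/-- no common zeros -/
def Mor {K : Type} [Field K] {a b : ℕ} (ψ : Fin b → MvPolynomial (Fin a) K) : Prop :=
  ∀ z : Fin a → AlgebraicClosure K, (∀ i, MvPolynomial.aeval z (ψ i) = 0) → z = 0

section

variable {K : Type} [Field K] [NumberField K] {L : Type} [Field L] [NumberField L] [Algebra K L]

lemma ev_ne_zero {a b : ℕ} {ψ : Fin b → MvPolynomial (Fin a) K} (h0 : Mor ψ)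
    {x : Fin a → L} (hx : x ≠ 0) : ev ψ x ≠ 0 := by
  intro h
  have : Algebra.IsAlgebraic K L := by
    have h1 : Module.Finite K L := Module.Finite.of_restrictScalars_finite ℚ K L
    infer_instance
  let σ : L →ₐ[K] AlgebraicClosure K := IsAlgClosed.lift
  apply hx
  have h1 : (fun i => σ (x i)) = 0 := by
    apply h0
    intro i
    have h2 : σ (MvPolynomial.aeval x (ψ i)) = MvPolynomial.aeval (fun i => σ (x i)) (ψ i) := by
      exact MvPolynomial.comp_aeval_apply x σ (ψ i)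
    rw [← h2]
    have h3 : MvPolynomial.aeval x (ψ i) = 0 := congrFun h i
    rw [h3, map_zero]
  funext i
  have h2 := congrFun h1 i
  simpa using h2

lemma sim_height {a : ℕ} {v w : Fin a → L} (h : Sim v w) :
    Height.logHeight v = Height.logHeight w := by
  obtain ⟨c, hc, rfl⟩ := h
  exact Height.logHeight_smul_eq_logHeight _ hc

/-- iterates -/
lemma intw_iter {a b d : ℕ} {ψ : Fin b → MvPolynomial (Fin a) K}
    {f : Fin a → MvPolynomial (Fin a) K} {f' : Fin b → MvPolynomial (Fin b) K}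
    (hf' : ∀ i, (f' i).IsHomogeneous d) (hI : Intw ψ f f') (hf0 : Mor f)
    {x : Fin a → L} (hx : x ≠ 0) (k : ℕ) :
    (act f)^[k] x ≠ 0 ∧ Sim (ev ψ ((act f)^[k] x)) ((act f')^[k] (ev ψ x)) := by
  induction k with
  | zero => exact ⟨hx, Sim.refl _⟩
  | succ k ih =>
    rw [Function.iterate_succ_apply', Function.iterate_succ_apply']
    refine ⟨ev_ne_zero hf0 ih.1, ?_⟩
    obtain ⟨c, hc, h1⟩ := hI L _ ih.1
    exact Sim.trans ⟨c, hc, h1⟩ (ih.2.act hf')

/-- the height limit along the iterates (relative height) -/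
def Lim {n : ℕ} (f : Fin n → MvPolynomial (Fin n) K) (q : ℕ) (x : Fin n → L) (l : ℝ) : Prop :=
  Tendsto (fun t : ℕ => Height.logHeight ((act f)^[t] x) / (q : ℝ) ^ t) atTop (𝓝 l)

/-- a bounded sequence divided by powers tends to zero -/
lemma bdd_div {s : ℕ → ℝ} {C q : ℝ} (hq : 2 ≤ q) (h : ∀ k, |s k| ≤ C) :
    Tendsto (fun k => s k / q ^ k) atTop (𝓝 0) := by
  have h1 : Tendsto (fun k : ℕ => C * (1 / q) ^ k) atTop (𝓝 0) := by
    have := (tendsto_pow_atTop_nhds_zero_of_lt_one (show 0 ≤ 1 / q by positivity)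
      (by rw [div_lt_one (by linarith)]; linarith)).const_mul C
    rwa [mul_zero] at this
  refine squeeze_zero_norm (fun k => ?_) h1
  have hqk : 0 < q ^ k := by positivity
  rw [Real.norm_eq_abs, abs_div, abs_of_pos hqk, one_div, inv_pow, ← div_eq_mul_inv]
  exact div_le_div_of_nonneg_right (h k) hqk.le

/-- the limits for intertwined maps -/
lemma lim_intw {a b d e : ℕ} {ψ : Fin b → MvPolynomial (Fin a) K}
    {f : Fin a → MvPolynomial (Fin a) K} {f' : Fin b → MvPolynomial (Fin b) K}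
    (hψ : ∀ i, (ψ i).IsHomogeneous e) (hψ0 : Mor ψ)
    (hf' : ∀ i, (f' i).IsHomogeneous d) (hd : 2 ≤ d) (hI : Intw ψ f f') (hf0 : Mor f)
    {x : Fin a → L} (hx : x ≠ 0) {l : ℝ} (hl : Lim f d x l) : Lim f' d (ev ψ x) (e * l) := by
  obtain ⟨C, -, hC⟩ := height_ev ψ hψ hψ0 L
  have hd' : (2 : ℝ) ≤ d := by exact_mod_cast hd
  have h1 : Tendsto (fun k : ℕ => (Height.logHeight (ev ψ ((act f)^[k] x)) -
      e * Height.logHeight ((act f)^[k] x)) / (d : ℝ) ^ k) atTop (𝓝 0) :=
    bdd_div hd' fun k => hC _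
  have h2 := h1.add (hl.const_mul (e : ℝ))
  rw [zero_add] at h2
  refine h2.congr fun k => ?_
  rw [sim_height (intw_iter hf' hI hf0 hx k).2]
  ring

/-- maps that commute with `g` have the same canonical height -/
lemma lim_comm {a d q : ℕ} {f g : Fin a → MvPolynomial (Fin a) K}
    (hf : ∀ i, (f i).IsHomogeneous d) (hf0 : Mor f) (hd : 2 ≤ d)
    (hg : ∀ i, (g i).IsHomogeneous q) (hg0 : Mor g) (hq : 2 ≤ q) (hI : Intw f g g)
    (hex : ∀ x : Fin a → L, x ≠ 0 → ∃ l, Lim g q x l)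
    {x : Fin a → L} (hx : x ≠ 0) {l : ℝ} (hl : Lim g q x l) : Lim f d x l := by
  classical
  have hq' : (2 : ℝ) ≤ q := by exact_mod_cast hq
  have hd' : (2 : ℝ) ≤ d := by exact_mod_cast hd
  obtain ⟨C, hC0, hC⟩ := height_ev g hg hg0 L
  choose! γ hγ using hex
  have hγl : γ x = l := tendsto_nhds_unique (hγ x hx) hl
  rw [← hγl]
  have h1 : ∀ y : Fin a → L, y ≠ 0 → |γ y - Height.logHeight y| ≤ C := by
    intro y hy
    exact abs_lim_le (fun z : Fin a → L => z ≠ 0) (act g) (fun z hz => ev_ne_zero hg0 hz)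
      (fun z => Height.logHeight z) hq' (fun z _ => hC z) hy (hγ y hy)
  have h2 : ∀ y : Fin a → L, y ≠ 0 → γ (act f y) = d * γ y := by
    intro y hy
    have h3 : Lim g q (ev f y) (d * γ y) := lim_intw hf hf0 hg hq hI hg0 hy (hγ y hy)
    exact tendsto_nhds_unique (hγ _ (ev_ne_zero hf0 hy)) h3
  exact tendsto_of_func (fun z : Fin a → L => z ≠ 0) (act f) (fun z hz => ev_ne_zero hf0 hz)
    (fun z => Height.logHeight z) γ hd' h1 h2 hx

/-- the limit is zero if the point is preperiodic -/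
lemma lim_zero_of_not_wand {a q : ℕ} {g : Fin a → MvPolynomial (Fin a) K}
    (hg : ∀ i, (g i).IsHomogeneous q) (hq : 2 ≤ q) {x : Fin a → L} (hw : ¬ Wand g x) {l : ℝ}
    (hl : Lim g q x l) : l = 0 := by
  unfold Wand at hw
  push Not at hw
  obtain ⟨m, k, hmk, hsim⟩ := hw
  have hsim' : Sim ((act g)^[k] x) ((act g)^[m] x) := hsim
  have hq' : (2 : ℝ) ≤ q := by exact_mod_cast hq
  have h1 : ∀ s : ℕ, Tendsto (fun t : ℕ => Height.logHeight ((act g)^[t] ((act g)^[s] x)) /
      (q : ℝ) ^ t) atTop (𝓝 ((q : ℝ) ^ s * l)) := by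
    intro s
    have h2 : Tendsto (fun t : ℕ => Height.logHeight ((act g)^[t + s] x) / (q : ℝ) ^ (t + s))
        atTop (𝓝 l) := (tendsto_add_atTop_iff_nat s).mpr hl
    refine (h2.const_mul ((q : ℝ) ^ s)).congr fun t => ?_
    rw [Function.iterate_add_apply, pow_add]
    have : (q : ℝ) ^ s ≠ 0 := by positivity
    field_simp
  have h2 := tendsto_nhds_unique (h1 k) ((h1 m).congr fun t => by
    rw [sim_height (hsim'.iter hg t)])
  by_contra hl0
  have h3 : (q : ℝ) ^ k = (q : ℝ) ^ m := mul_right_cancel₀ hl0 h2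
  exact hmk (pow_right_injective₀ (by linarith) (by linarith) h3).symm

end

/-- **The main theorem.** -/
theorem main {K : Type} [Field K] [NumberField K] {p r : ℕ} (hp : p.Prime) (hr : 1 ≤ r)
    (F : Fin 2 → MvPolynomial (Fin 2) K) (hF : ∀ i, (F i).IsHomogeneous (p ^ r))
    (K' : Type) [Field K'] [NumberField K'] [Algebra K K'] (A : Matrix (Fin 2) (Fin 2) K')
    (hA : A.det ≠ 0) (G : Fin 2 → MvPolynomial (Fin 2) K')
    (hGhom : ∀ i, (G i).IsHomogeneous (p ^ r)) (hconj : H420R3.Conj A F G) (v : FinitePlace K')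
    (hv : v (p : K') < 1) (hred : H420R3.InsepAt v (p ^ r) G) (B m : ℕ) (hm : 1 ≤ m) {n N d e : ℕ}
    {g : Fin (N + 1) → MvPolynomial (Fin (N + 1)) K} (hg : ∀ i, (g i).IsHomogeneous (p ^ r))
    (hg0 : Mor g) (hsym : IsSymPow F g)
    {f' : Fin (N + 1) → MvPolynomial (Fin (N + 1)) K} (hf' : ∀ i, (f' i).IsHomogeneous d)
    (hf'0 : Mor f') (hd : 2 ≤ d) (hcomm : Intw f' g g)
    {ψ : Fin (N + 1) → MvPolynomial (Fin (n + 1)) K} (hψ : ∀ i, (ψ i).IsHomogeneous e)
    (hψ0 : Mor ψ) (he : 1 ≤ e)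
    {f : Fin (n + 1) → MvPolynomial (Fin (n + 1)) K} (hf : ∀ i, (f i).IsHomogeneous d)
    (hf0 : Mor f) (hint : Intw ψ f f') :
    ∃ C : ℝ, 0 < C ∧ ∀ (E M L : Type) [Field E] [NumberField E] [Field M] [NumberField M]
      [Field L] [NumberField L] [Algebra K E] [Algebra K M] [Algebra K L] [Algebra E M]
      [Algebra M L] [IsScalarTower K E M] [IsScalarTower K M L] [IsGalois K E],
      Y740.RL.FewConj ((H420R3.mi v).under (𝓞 K)) E B m →
      Algebra.adjoin E (Y740.RL.PerSet F M) = ⊤ →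
      ∀ x : Fin (n + 1) → L, x ≠ 0 → Wand f x →
      ∃ h : ℝ, Tendsto (fun t : ℕ => Height.logHeight ((act f)^[t] x) /
          ((finrank ℚ L : ℝ) * (d : ℝ) ^ t)) atTop (𝓝 h) ∧
        Real.exp (-(C * Real.sqrt (1 + Real.log (finrank M L)))) /
          (C * finrank K E * finrank M L) ≤ h ∧
        ∀ e : ℕ, Y740.RL.RamLe ((H420R3.mi v).under (𝓞 K)) E e →
          Real.exp (-(C * Real.sqrt (1 + Real.log (finrank M L)))) / (C * e * finrank M L) ≤
            h := by
  have hq : 2 ≤ p ^ r := hp.two_le.trans (Nat.le_self_pow (by omega) _)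
  obtain ⟨C0, hC0, hlow⟩ := SY.main hp hr F hF K' A hA G hGhom hconj v hv hred B m hm hg hg0 hsym
  obtain ⟨_, _, hcanf⟩ := W238.Leh.general K n d hd f hf hf0 1 one_pos
  obtain ⟨_, _, hcang⟩ := W238.Leh.general K N (p ^ r) hq g hg hg0 1 one_pos
  have he0 : (1 : ℝ) ≤ e := by exact_mod_cast he
  refine ⟨C0 * e, by positivity, ?_⟩
  intro E M L _ _ _ _ _ _ _ _ _ _ _ _ _ _ hE hgen x hx hw
  have hL0 : (0 : ℝ) < finrank ℚ L := by exact_mod_cast (finrank_pos : 0 < finrank ℚ L)
  -- from the normalised limits to the limits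
  have conv : ∀ {a b : ℕ} {F : Fin a → MvPolynomial (Fin a) K} {z : Fin a → L} {h : ℝ},
      Tendsto (fun t : ℕ => Height.logHeight ((act F)^[t] z) /
        ((finrank ℚ L : ℝ) * (b : ℝ) ^ t)) atTop (𝓝 h) ↔ Lim F b z (finrank ℚ L * h) := by
    intro a b F z h
    unfold Lim
    constructor
    · intro h1
      refine (h1.const_mul (finrank ℚ L : ℝ)).congr fun t => ?_
      field_simp
    · intro h1
      have h2 := h1.div_const (finrank ℚ L : ℝ)
      rw [mul_div_cancel_left₀ _ hL0.ne'] at h2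
      refine h2.congr fun t => ?_
      rw [div_div, mul_comm]
  obtain ⟨hfl, _, _, hfpos⟩ := hcanf L
  obtain ⟨hgl, _, _, _⟩ := hcang L
  have hfx := hfl x hx
  have hpos : 0 < W238.Leh.canH f d x := (Real.exp_pos _).trans_le (hfpos x hx hw)
  set hh := W238.Leh.canH f d x with hhdef
  have hfx' : Lim f d x (finrank ℚ L * hh) := conv.mp hfx
  set y := ev ψ x with hy
  have hy0 : y ≠ 0 := ev_ne_zero hψ0 hx
  have hgy : Lim g (p ^ r) y (finrank ℚ L * W238.Leh.canH g (p ^ r) y) := conv.mp (hgl y hy0)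
  have h1 : Lim f' d y (finrank ℚ L * W238.Leh.canH g (p ^ r) y) :=
    lim_comm hf' hf'0 hd hg hg0 hq hcomm
      (fun z hz => ⟨_, conv.mp (hgl z hz)⟩) hy0 hgy
  have h2 : Lim f' d y (e * (finrank ℚ L * hh)) :=
    lim_intw hψ hψ0 hf' hd hint hf0 hx hfx'
  have h3 : finrank ℚ L * W238.Leh.canH g (p ^ r) y = e * (finrank ℚ L * hh) :=
    tendsto_nhds_unique h1 h2
  have hwy : Wand g y := by
    by_contra hcon
    have h4 := lim_zero_of_not_wand hg hq hcon hgy
    rw [h3] at h4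
    have : 0 < (e : ℝ) * (finrank ℚ L * hh) := by positivity
    linarith
  obtain ⟨h, hlim, hb1, hb2⟩ := hlow E M L hE hgen y hy0 hwy
  have hh' : h = e * hh := by
    have h4 : Lim g (p ^ r) y (finrank ℚ L * h) := conv.mp hlim
    have h5 := tendsto_nhds_unique h4 hgy
    rw [h3] at h5
    have h6 : (finrank ℚ L : ℝ) * h = finrank ℚ L * (e * hh) := by rw [h5]; ring
    exact mul_left_cancel₀ hL0.ne' h6
  have hML : Module.Finite M L := Module.Finite.of_restrictScalars_finite ℚ M L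
  have hD1 : (1 : ℝ) ≤ finrank M L := by exact_mod_cast (finrank_pos : 0 < finrank M L)
  have hexp : Real.exp (-(C0 * e * Real.sqrt (1 + Real.log (finrank M L)))) ≤
      Real.exp (-(C0 * Real.sqrt (1 + Real.log (finrank M L)))) := by
    apply Real.exp_le_exp.mpr
    have h7 : 0 ≤ C0 * Real.sqrt (1 + Real.log (finrank M L : ℝ)) := by positivity
    nlinarith
  have key : ∀ s : ℝ, 0 ≤ s →
      Real.exp (-(C0 * Real.sqrt (1 + Real.log (finrank M L)))) / (C0 * s * finrank M L) ≤ h →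
      Real.exp (-(C0 * e * Real.sqrt (1 + Real.log (finrank M L)))) /
        (C0 * e * s * finrank M L) ≤ hh := by
    intro s hs hle
    have h8 : Real.exp (-(C0 * e * Real.sqrt (1 + Real.log (finrank M L)))) /
        (C0 * e * s * finrank M L) ≤
        Real.exp (-(C0 * Real.sqrt (1 + Real.log (finrank M L)))) /
        (C0 * e * s * finrank M L) := div_le_div_of_nonneg_right hexp (by positivity)
    refine h8.trans ?_
    have h9 : Real.exp (-(C0 * Real.sqrt (1 + Real.log (finrank M L)))) /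
        (C0 * e * s * finrank M L) =
        Real.exp (-(C0 * Real.sqrt (1 + Real.log (finrank M L)))) /
        (C0 * s * finrank M L) / e := by
      rw [div_div]
      congr 1
      ring
    rw [h9, div_le_iff₀ (by linarith), mul_comm hh, ← hh']
    exact hle
  refine ⟨hh, hfx, key _ (Nat.cast_nonneg _) hb1, fun e' he' => key _ (Nat.cast_nonneg _)
    (hb2 e' he')⟩

end Pool.Agent.Q188.CM
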